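import Pool.Agent.Helper69.QG.St3

open Complex Set Metric
open scoped ComplexConjugate

namespace Pool.Agent.Helper11.QG

open Pool.Agent.Helper69.QG

/-- acts as a translation -/
private def Tr (v : W) : Prop := ∃ t : ℂ, ∀ u, flat v u = u + t

private theorem gg (s : Fin 4) : gen s * gen s = 1 := cs.simple_mul_simple_self s

private theorem gi (s : Fin 4) : (gen s)⁻¹ = gen s := inv_eq_of_mul_eq_one_right (gg s)

private theorem fm (v w : W) (u : ℂ) : flat (v * w) u = flat v (flat w u) := by
  rw [map_mul]; rfl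

private theorem fr_add (s : Fin 4) : ∃ l : ℂ → ℂ, ∀ x t, fr s (x + t) = fr s x + l t := by
  fin_cases s
  · exact ⟨fun t => -conj t, fun x t => by simp [fr]; ring⟩
  · exact ⟨fun t => -conj t, fun x t => by simp [fr]; ring⟩
  · exact ⟨fun t => conj t, fun x t => by simp [fr]⟩
  · exact ⟨fun t => conj t, fun x t => by simp [fr]; ring⟩

private theorem Tr_conj (w : W) : ∀ v, Tr v → Tr (w * v * w⁻¹) := by
  refine cs.simple_induction (p := fun w => ∀ v, Tr v → Tr (w * v * w⁻¹)) w ?_ ?_ ?_
  · intro s v hv
    obtain ⟨t, ht⟩ := hv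
    obtain ⟨l, hl⟩ := fr_add s
    have e : cs.simple s = gen s := rfl
    rw [e, gi]
    refine ⟨l t, fun u => ?_⟩
    rw [fm, fm, flat_gen, flat_gen, ht, hl, fr_fr]
  · intro v hv
    simpa using hv
  · intro w w' h h' v hv
    have : w * w' * v * (w * w')⁻¹ = w * (w' * v * w'⁻¹) * w⁻¹ := by group
    rw [this]
    exact h _ (h' _ hv)

private theorem nT {v : W} {f : ℂ → ℂ} (hf : ∀ u, flat v u = f u) {y : ℂ}
    (h : f y ≠ y + f 0) : ¬ Tr v := by
  rintro ⟨t, ht⟩
  apply h
  have h0 := ht 0
  have hy := ht y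
  rw [hf] at h0 hy
  rw [zero_add] at h0
  rw [hy, h0]

private theorem c2 : (starRingEnd ℂ) 2 = 2 := map_ofNat _ 2

private theorem comm_of {s t : Fin 4} (h : (gen s * gen t) ^ 2 = 1) : gen s * gen t = gen t * gen s := by
  have h1 : gen s * gen t * (gen s * gen t) = 1 := by rw [← pow_two]; exact h
  have h2 : (gen s * gen t)⁻¹ = gen t * gen s := by rw [mul_inv_rev, gi, gi]
  rw [← h2]
  exact eq_inv_of_mul_eq_one_left h1

/-- closure of two commuting generators -/
private theorem clo2 {s t : Fin 4} (hc : gen s * gen t = gen t * gen s) {v : W}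
    (hv : v ∈ Subgroup.closure ({gen s, gen t} : Set W)) :
    v = 1 ∨ v = gen s ∨ v = gen t ∨ v = gen s * gen t := by
  have step : ∀ x ∈ ({gen s, gen t} : Set W), ∀ y : W,
      (y = 1 ∨ y = gen s ∨ y = gen t ∨ y = gen s * gen t) →
      (x * y = 1 ∨ x * y = gen s ∨ x * y = gen t ∨ x * y = gen s * gen t) := by
    rintro x (rfl | rfl) y (rfl | rfl | rfl | rfl)
    · right; left; exact mul_one _
    · left; exact gg s
    · right; right; right; rfl
    · right; right; left; rw [← mul_assoc, gg, one_mul]
    · right; right; left; exact mul_one _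
    · right; right; right; exact hc.symm
    · left; exact gg t
    · right; left; rw [hc, ← mul_assoc, gg, one_mul]
  induction hv using Subgroup.closure_induction_left with
  | one => left; rfl
  | mul_left x hx y _ ih => exact step x hx y ih
  | inv_mul_cancel x hx y _ ih =>
    have : x⁻¹ = x := by
      rcases hx with rfl | rfl
      · exact gi s
      · exact gi t
    rw [this]
    exact step x hx y ih

private theorem bd4 : gen 1 * gen 3 * gen 1 * gen 3 = gen 3 * gen 1 * gen 3 * gen 1 := by
  have h : (gen 1 * gen 3) ^ 4 = 1 := cs.simple_mul_simple_pow 1 3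
  have h1 : (gen 1 * gen 3 * gen 1 * gen 3) * (gen 1 * gen 3 * gen 1 * gen 3) = 1 := by
    rw [← h]; simp only [pow_succ, pow_zero, one_mul, mul_assoc]
  have h2 : (gen 1 * gen 3 * gen 1 * gen 3)⁻¹ = gen 3 * gen 1 * gen 3 * gen 1 := by
    simp only [mul_inv_rev, gi, mul_assoc]
  rw [← h2]
  exact eq_inv_of_mul_eq_one_left h1

private theorem cn (s : Fin 4) (y : W) : gen s * (gen s * y) = y := by
  rw [← mul_assoc, gg, one_mul]

private def L8 (v : W) : Prop := v = 1 ∨ v = gen 1 ∨ v = gen 3 ∨ v = gen 1 * gen 3 ∨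
  v = gen 3 * gen 1 ∨ v = gen 1 * (gen 3 * gen 1) ∨ v = gen 3 * (gen 1 * gen 3) ∨
  v = gen 1 * (gen 3 * (gen 1 * gen 3))

private theorem clo8 {v : W} (hv : v ∈ Subgroup.closure ({gen 1, gen 3} : Set W)) : L8 v := by
  have hb : gen 1 * (gen 3 * (gen 1 * gen 3)) = gen 3 * (gen 1 * (gen 3 * gen 1)) := by
    have := bd4
    simpa only [mul_assoc] using this
  have step : ∀ x ∈ ({gen 1, gen 3} : Set W), ∀ y : W, L8 y → L8 (x * y) := by
    rintro x (rfl | rfl) y (rfl | rfl | rfl | rfl | rfl | rfl | rfl | rfl)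
    · right; left; exact mul_one _
    · left; exact gg 1
    · right; right; right; left; rfl
    · right; right; left; exact cn 1 _
    · right; right; right; right; right; left; rfl
    · right; right; right; right; left; exact cn 1 _
    · right; right; right; right; right; right; right; rfl
    · right; right; right; right; right; right; left; exact cn 1 _
    · right; right; left; exact mul_one _
    · right; right; right; right; left; rfl
    · left; exact gg 3
    · right; right; right; right; right; right; left; rfl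
    · right; left; exact cn 3 _
    · right; right; right; right; right; right; right; exact hb.symm
    · right; right; right; left; exact cn 3 _
    · right; right; right; right; right; left; rw [hb]; exact cn 3 _
  induction hv using Subgroup.closure_induction_left with
  | one => left; rfl
  | mul_left x hx y _ ih => exact step x hx y ih
  | inv_mul_cancel x hx y _ ih =>
    have : x⁻¹ = x := by
      rcases hx with rfl | rfl
      · exact gi 1
      · exact gi 3
    rw [this]
    exact step x hx y ih

private theorem ne1 : (1 : ℂ) ≠ 0 := one_ne_zero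

private theorem nTg (s : Fin 4) : ¬ Tr (gen s) := by
  fin_cases s
  · refine nT (f := fr 0) (fun u => flat_gen 0 u) (y := 1) ?_
    simp only [fr, map_one, map_zero]
    intro h; apply ne1; linear_combination (-1 / 2 : ℂ) * h
  · refine nT (f := fr 1) (fun u => flat_gen 1 u) (y := 1) ?_
    simp only [fr, map_one, map_zero]
    intro h; apply ne1; linear_combination (-1 / 2 : ℂ) * h
  · refine nT (f := fr 2) (fun u => flat_gen 2 u) (y := I) ?_
    simp only [fr, Complex.conj_I, map_zero]
    intro h; apply Complex.I_ne_zero; linear_combination (-1 / 2 : ℂ) * h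
  · refine nT (f := fr 3) (fun u => flat_gen 3 u) (y := I) ?_
    simp only [fr, Complex.conj_I, map_zero]
    intro h; apply Complex.I_ne_zero; linear_combination (-1 / 2 : ℂ) * h

private theorem fgg (s t : Fin 4) (u : ℂ) : flat (gen s * gen t) u = fr s (fr t u) := by
  rw [fm, flat_gen, flat_gen]

private theorem nTgg (s t : Fin 4) (h : (s = 0 ∨ s = 1) ∧ (t = 2 ∨ t = 3) ∨
    (s = 3 ∧ t = 1)) : ¬ Tr (gen s * gen t) := by
  refine nT (f := fun u => fr s (fr t u)) (fgg s t) (y := 1) ?_
  rcases h with ⟨rfl | rfl, rfl | rfl⟩ | ⟨rfl, rfl⟩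
  all_goals
    simp only [fr, map_one, map_zero, map_add, map_sub, map_mul, c2, Complex.conj_I]
    intro h; apply ne1; linear_combination (-1 / 2 : ℂ) * h

private theorem nT131 : ¬ Tr (gen 1 * (gen 3 * gen 1)) := by
  refine nT (f := fun u => fr 1 (fr 3 (fr 1 u))) (fun u => by rw [fm, fgg, flat_gen]) (y := I) ?_
  simp only [fr, map_one, map_zero, map_add, map_sub, map_mul, c2, Complex.conj_I, map_neg]
  intro h; apply Complex.I_ne_zero; linear_combination (-1 / 2 : ℂ) * h

private theorem nT313 : ¬ Tr (gen 3 * (gen 1 * gen 3)) := by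
  refine nT (f := fun u => fr 3 (fr 1 (fr 3 u))) (fun u => by rw [fm, fgg, flat_gen]) (y := 1) ?_
  simp only [fr, map_one, map_zero, map_add, map_sub, map_mul, c2, Complex.conj_I, map_neg]
  intro h; apply ne1; linear_combination (-1 / 2 : ℂ) * h

/-- The elements of the stabiliser groups which act as translations. -/
private theorem stab {s t : Fin 4} (hs : s = 0 ∨ s = 1) (ht : t = 2 ∨ t = 3) {v : W}
    (hv : v ∈ Subgroup.closure ({gen s, gen t} : Set W)) (hT : Tr v) :
    v = 1 ∨ v = (gen 1 * gen 3) ^ 2 := by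
  by_cases h13 : s = 1 ∧ t = 3
  · obtain ⟨rfl, rfl⟩ := h13
    rcases clo8 hv with h | h | h | h | h | h | h | h
    · left; exact h
    · exact absurd (h ▸ hT) (nTg 1)
    · exact absurd (h ▸ hT) (nTg 3)
    · exact absurd (h ▸ hT) (nTgg 1 3 (by simp))
    · exact absurd (h ▸ hT) (nTgg 3 1 (by simp))
    · exact absurd (h ▸ hT) nT131
    · exact absurd (h ▸ hT) nT313
    · right; rw [h, pow_two]; simp only [mul_assoc]
  · left
    have hc : gen s * gen t = gen t * gen s := by
      apply comm_of
      rcases hs with rfl | rfl <;> rcases ht with rfl | rfl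
      · exact cs.simple_mul_simple_pow 0 2
      · exact cs.simple_mul_simple_pow 0 3
      · exact cs.simple_mul_simple_pow 1 2
      · exact absurd ⟨rfl, rfl⟩ h13
    rcases clo2 hc hv with h | h | h | h
    · exact h
    · exact absurd (h ▸ hT) (nTg s)
    · exact absurd (h ▸ hT) (nTg t)
    · exact absurd (h ▸ hT) (nTgg s t (Or.inl ⟨hs, ht⟩))

theorem cFPF (stz : St_STZ) (cvr : St_CVR) (pch : St_PCH) : St_FPF := by
  intro S _ ι hι htr hρ x hx z hz
  obtain ⟨ρ, hρ0, hρ1⟩ := hρ
  obtain ⟨w, hw⟩ := cvr z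
  set p : DD := act w z with hp
  set v : W := w * ι x * w⁻¹ with hv
  have hact : act v p = p := by
    have hi : (act w)⁻¹ (act w z) = z := (act w).symm_apply_apply z
    rw [hv, map_mul, map_mul, Equiv.Perm.mul_apply, Equiv.Perm.mul_apply, hp, map_inv, hi, hz]
  obtain ⟨-, hcl⟩ := stz.1 v p hw (by rw [hact]; exact hw)
  obtain ⟨k0, k1, k2, k3⟩ := pch.2.2.2.2 p hw
  have hT : Tr v := Tr_conj w _ (htr x)
  -- the walls through `p`
  have h01 : ∃ s : Fin 4, (s = 0 ∨ s = 1) ∧ ∀ r : Fin 4, (r = 0 ∨ r = 1) →
      act (gen r) p = p → r = s := by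
    by_cases h : act (gen 0) p = p
    · refine ⟨0, Or.inl rfl, ?_⟩
      rintro r (rfl | rfl) hr
      · rfl
      · exfalso
        have a := k0.mp h
        have b := k1.mp hr
        rw [a] at b
        exact zero_ne_one b
    · refine ⟨1, Or.inr rfl, ?_⟩
      rintro r (rfl | rfl) hr
      · exact absurd hr h
      · rfl
  have h23 : ∃ s : Fin 4, (s = 2 ∨ s = 3) ∧ ∀ r : Fin 4, (r = 2 ∨ r = 3) →
      act (gen r) p = p → r = s := by
    by_cases h : act (gen 2) p = p
    · refine ⟨2, Or.inl rfl, ?_⟩
      rintro r (rfl | rfl) hr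
      · rfl
      · exfalso
        have a := k2.mp h
        have b := k3.mp hr
        rw [a] at b
        exact zero_ne_one b
    · refine ⟨3, Or.inr rfl, ?_⟩
      rintro r (rfl | rfl) hr
      · exact absurd hr h
      · rfl
  obtain ⟨s, hs, hs'⟩ := h01
  obtain ⟨t, ht, ht'⟩ := h23
  have hsub : {v : W | ∃ s, v = gen s ∧ act (gen s) p = p} ⊆ ({gen s, gen t} : Set W) := by
    rintro _ ⟨r, rfl, hr⟩
    have hr4 : (r = 0 ∨ r = 1) ∨ (r = 2 ∨ r = 3) := by
      fin_cases r <;> simp
    rcases hr4 with h | h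
    · left; rw [hs' r h hr]
    · right; rw [ht' r h hr]; rfl
  have hcl' : v ∈ Subgroup.closure ({gen s, gen t} : Set W) := Subgroup.closure_mono hsub hcl
  rcases stab hs ht hcl' hT with h | h
  · apply hx
    apply hι
    rw [map_one]
    have : ι x = w⁻¹ * v * w := by rw [hv]; group
    rw [this, h]; group
  · apply hρ1 (ρ w ste0)
    have hi : (ρ w)⁻¹ (ρ w ste0) = ste0 := (ρ w).symm_apply_apply ste0
    rw [← h, hv, map_mul, map_mul, Equiv.Perm.mul_apply, Equiv.Perm.mul_apply, map_inv, hi, hρ0]

end Pool.Agent.Helper11.QG
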