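import Pool.Agent.Helper69.QG.St4

open Complex Set Metric MeasureTheory Filter Topology
open scoped ComplexConjugate

namespace Pool.Agent.Helper11.QG

open Pool.Agent.Helper69.QG

private theorem mobd {α β : ℂ} (h : ‖α‖ ^ 2 - ‖β‖ ^ 2 = 1) {z : ℂ} (hz : ‖z‖ < 1) :
    conj β * z + conj α ≠ 0 := by
  intro h0
  have h1 : ‖conj α‖ = ‖conj β * z‖ := by
    rw [eq_neg_of_add_eq_zero_right h0, norm_neg]
  rw [norm_mul, RCLike.norm_conj, RCLike.norm_conj] at h1
  have h2 : ‖β‖ * ‖z‖ ≤ ‖β‖ := mul_le_of_le_one_right (norm_nonneg _) hz.le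
  nlinarith [norm_nonneg α, norm_nonneg β]

private theorem mdiff {α β : ℂ} (h : ‖α‖ ^ 2 - ‖β‖ ^ 2 = 1) :
    DifferentiableOn ℝ (fun z : ℂ => (α * z + β) / (conj β * z + conj α)) (ball 0 1) := by
  intro z hz
  have hz' : ‖z‖ < 1 := by simpa using hz
  have h1 : DifferentiableAt ℂ (fun z : ℂ => (α * z + β) / (conj β * z + conj α)) z :=
    DifferentiableAt.div (by fun_prop) (by fun_prop) (mobd h hz')
  exact (h1.restrictScalars ℝ).differentiableWithinAt

private theorem rep (cta : St_CTA) (evl : St_EVL) (w : W) :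
    ∃ f : ℂ → ℂ, DifferentiableOn ℝ f (ball 0 1) ∧ ∀ z : DD, ((act w z : DD) : ℂ) = f z := by
  rcases evl.2.2.2.1 w with h | h
  · obtain ⟨α, β, h1, h2⟩ := cta.2.1 ⟨w, h⟩
    exact ⟨_, mdiff h1, h2⟩
  · obtain ⟨α, β, h1, h2⟩ := cta.2.2 ⟨w * gen 0, h⟩
    have e : w * gen 0 * gen 0 = w := by
      rw [mul_assoc]
      have : gen 0 * gen 0 = 1 := cs.simple_mul_simple_self 0
      rw [this, mul_one]
    have e' : ((⟨w * gen 0, h⟩ : Ev) : W) * gen 0 = w := e
    rw [e'] at h2
    refine ⟨fun z => (α * conj z + β) / (conj β * conj z + conj α), ?_, h2⟩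
    have hc : DifferentiableOn ℝ (fun z : ℂ => conj z) (ball (0 : ℂ) 1) :=
      (Complex.conjCLE : ℂ →L[ℝ] ℂ).differentiable.differentiableOn
    refine (mdiff h1).comp hc ?_
    intro z hz
    have : ‖conj z‖ < 1 := by rw [RCLike.norm_conj]; simpa using hz
    simpa using this

/-- the exceptional set of the tile -/
private def NS : Set ℂ := {z | ∃ h : z ∈ ball (0 : ℂ) 1, (⟨z, h⟩ : DD) ∈ Pc ∧ (⟨z, h⟩ : DD) ∉ Po}

private theorem NS_null : volume NS = 0 := by
  have hre : volume {z : ℂ | z.re = 0} = 0 := by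
    have h1 : ({z : ℂ | z.re = 0} : Set ℂ) = (LinearMap.ker Complex.reLm : Submodule ℝ ℂ) := by
      ext z; simp
    rw [h1]
    refine Measure.addHaar_submodule volume _ ?_
    intro h
    have : (1 : ℂ) ∈ LinearMap.ker Complex.reLm := by rw [h]; trivial
    simp at this
  have him : volume {z : ℂ | z.im = 0} = 0 := by
    have h1 : ({z : ℂ | z.im = 0} : Set ℂ) = (LinearMap.ker Complex.imLm : Submodule ℝ ℂ) := by
      ext z; simp
    rw [h1]
    refine Measure.addHaar_submodule volume _ ?_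
    intro h
    have : I ∈ LinearMap.ker Complex.imLm := by rw [h]; trivial
    simp at this
  have hs1 : volume (sphere (C0 : ℂ) (Real.sqrt (C0 ^ 2 - 1))) = 0 :=
    Measure.addHaar_sphere volume _ _
  have hs2 : volume (sphere (I * C0 : ℂ) (Real.sqrt (C0 ^ 2 - 1))) = 0 :=
    Measure.addHaar_sphere volume _ _
  have hU : volume ({z : ℂ | z.re = 0} ∪ {z : ℂ | z.im = 0} ∪
      (sphere (C0 : ℂ) (Real.sqrt (C0 ^ 2 - 1)) ∪
        sphere (I * C0 : ℂ) (Real.sqrt (C0 ^ 2 - 1)))) = 0 := by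
    rw [measure_union_null_iff, measure_union_null_iff, measure_union_null_iff]
    exact ⟨⟨hre, him⟩, hs1, hs2⟩
  refine measure_mono_null ?_ hU
  rintro z ⟨hz, hpc, hpo⟩
  have hlt := lt_one_of_mem hz
  have hD : (1 : ℝ) - (z.re ^ 2 + z.im ^ 2) ≠ 0 := by linarith
  have hC := C0_gt
  have hsg := sg_pos.ne'
  have hkp : kp = C0 * sg := by unfold C0; field_simp
  have hex : ∃ s, lf (Xm z) (ev s) = 0 := by
    by_contra hcon
    push Not at hcon
    exact hpo fun s => lt_of_le_of_ne (hpc s) (hcon s).symm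
  obtain ⟨s, hs⟩ := hex
  have hC1 : 0 ≤ C0 ^ 2 - 1 := by nlinarith
  fin_cases s
  · left; left
    simp only [lf, Xm, ev, nsq, Matrix.cons_val_zero, Matrix.cons_val_one, Matrix.cons_val,
      Fin.zero_eta] at hs
    field_simp at hs
    show z.re = 0
    linarith
  · right; left
    simp only [lf, Xm, ev, nsq, Matrix.cons_val_zero, Matrix.cons_val_one, Matrix.cons_val,
      Fin.mk_one, hkp] at hs
    field_simp at hs
    rw [mem_sphere, dist_eq_norm, eq_comm, Real.sqrt_eq_iff_mul_self_eq hC1 (norm_nonneg _),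
      ← pow_two, nsq]
    simp only [Complex.sub_re, Complex.sub_im, Complex.ofReal_re, Complex.ofReal_im]
    have h2 : (1 + (z.re ^ 2 + z.im ^ 2)) - 2 * C0 * z.re = 0 := by
      have : sg * ((1 + (z.re ^ 2 + z.im ^ 2)) - 2 * C0 * z.re) = 0 := by linarith
      rcases mul_eq_zero.mp this with h | h
      · exact absurd h hsg
      · exact h
    linarith
  · left; right
    simp only [lf, Xm, ev, nsq, Matrix.cons_val_zero, Matrix.cons_val_one, Matrix.cons_val,
      Fin.reduceFinMk] at hs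
    field_simp at hs
    show z.im = 0
    linarith
  · right; right
    simp only [lf, Xm, ev, nsq, Matrix.cons_val_zero, Matrix.cons_val_one, Matrix.cons_val,
      Fin.reduceFinMk, hkp] at hs
    field_simp at hs
    rw [mem_sphere, dist_eq_norm, eq_comm, Real.sqrt_eq_iff_mul_self_eq hC1 (norm_nonneg _),
      ← pow_two, nsq]
    simp only [Complex.sub_re, Complex.sub_im, Complex.mul_re, Complex.mul_im, Complex.I_re,
      Complex.I_im, Complex.ofReal_re, Complex.ofReal_im]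
    have h2 : (1 + (z.re ^ 2 + z.im ^ 2)) - 2 * C0 * z.im = 0 := by
      have : sg * ((1 + (z.re ^ 2 + z.im ^ 2)) - 2 * C0 * z.im) = 0 := by linarith
      rcases mul_eq_zero.mp this with h | h
      · exact absurd h hsg
      · exact h
    linarith

theorem cTNL (_pbd : St_PBD) (cvr : St_CVR) (cta : St_CTA) (evl : St_EVL) : St_TNL := by
  choose f hf1 hf2 using rep cta evl
  have hnull : volume (⋃ l : List (Fin 4), f (cs.wordProd l) '' NS) = 0 := by
    rw [measure_iUnion_null_iff]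
    intro l
    have hsub : NS ⊆ ball (0 : ℂ) 1 := fun z hz => hz.1
    exact addHaar_image_eq_zero_of_differentiableOn_of_addHaar_eq_zero volume
      ((hf1 (cs.wordProd l)).mono hsub) NS_null
  refine measure_mono_null ?_ hnull
  rintro z ⟨hz, hno⟩
  obtain ⟨w, hw⟩ := cvr ⟨z, hz⟩
  have hw' : act w ⟨z, hz⟩ ∉ Po := fun h => hno ⟨w, h⟩
  obtain ⟨l, hl⟩ := cs.wordProd_surjective w⁻¹
  rw [mem_iUnion]
  refine ⟨l, ((act w ⟨z, hz⟩ : DD) : ℂ), ⟨(act w ⟨z, hz⟩ : DD).2, hw, hw'⟩, ?_⟩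
  rw [hl, ← hf2 w⁻¹]
  have hi : act w⁻¹ (act w ⟨z, hz⟩) = ⟨z, hz⟩ := by
    rw [map_inv]; exact (act w).symm_apply_apply _
  rw [hi]

end Pool.Agent.Helper11.QG
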